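import Pool.Agent.Y536.SH.OpenW
import Pool.Agent.R873.SB.Core

set_option autoImplicit false

/-!
# Arbitrary bounded vectors of multiplicities: the general member outside of a short interval
-/

namespace Pool.Agent.K3h62.SI

open MvPolynomial Pool.Agent.H248R5 Pool.Agent.H248R6 Pool.Agent.R873.SB

section num

variable {n : ℕ}

theorem two_chi (d : ℕ) (w : Fin n → ℕ) :
    2 * chi d w = ((d : ℤ) + 1) * (d + 2) - ∑ i, (w i : ℤ) * (w i + 1) := by
  have h1 := Pool.Agent.R873.SB.two_choose (d + 1)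
  have h2 : 2 * ∑ i, ((w i + 1).choose 2 : ℤ) = ∑ i, (w i : ℤ) * (w i + 1) := by
    rw [Finset.mul_sum]
    exact Finset.sum_congr rfl fun i _ => Pool.Agent.R873.SB.two_choose (w i)
  have h3 : 2 * ((d + 2).choose 2 : ℤ) = ((d : ℤ) + 1) * (d + 2) := by
    rw [show d + 2 = (d + 1) + 1 by ring, h1]
    push_cast
    ring
  unfold chi
  rw [mul_sub, h2, h3]

theorem chi_nat (d : ℕ) (w : Fin n → ℕ) :
    chi d w = ((d + 2).choose 2 : ℤ) - ((∑ i, (w i + 1).choose 2 : ℕ) : ℤ) := by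
  unfold chi
  push_cast
  rfl

/-- the vector with one multiplicity increased by one -/
theorem chi_upd (d : ℕ) (v : Fin n → ℕ) (k : Fin n) :
    chi d (Function.update v k (v k + 1)) = chi d v - v k - 1 := by
  rw [chi_nat, chi_nat, Pool.Agent.Y536.SH.sum_updw]
  push_cast
  ring

theorem sum_upd (v : Fin n → ℕ) (k : Fin n) :
    ∑ i, ((Function.update v k (v k + 1) i : ℕ) : ℤ) = ∑ i, (v i : ℤ) + 1 := by
  classical
  rw [← Finset.add_sum_erase _ _ (Finset.mem_univ k),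
    ← Finset.add_sum_erase _ (fun i => (v i : ℤ)) (Finset.mem_univ k), Function.update_self]
  have h : ∑ i ∈ Finset.univ.erase k, ((Function.update v k (v k + 1) i : ℕ) : ℤ) =
      ∑ i ∈ Finset.univ.erase k, (v i : ℤ) := by
    refine Finset.sum_congr rfl fun i hi => ?_
    rw [Function.update_of_ne (Finset.ne_of_mem_erase hi)]
  rw [h]
  push_cast
  ring

/-- the vector with all multiplicities decreased by one, in the preceding degree -/
theorem chi_pred (e : ℕ) (v : Fin n → ℕ) :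
    chi e (fun i => v i - 1) = chi (e + 1) v + ∑ i, (v i : ℤ) - (e + 2) := by
  have h1 := two_chi e (fun i => v i - 1)
  have h2 := two_chi (e + 1) v
  have h3 : ∑ i, (((v i - 1 : ℕ) : ℤ)) * (((v i - 1 : ℕ) : ℤ) + 1) =
      ∑ i, (v i : ℤ) * (v i + 1) - 2 * ∑ i, (v i : ℤ) := by
    rw [Finset.mul_sum, ← Finset.sum_sub_distrib]
    refine Finset.sum_congr rfl fun i _ => ?_
    rcases Nat.eq_zero_or_pos (v i) with h | h
    · rw [h]
      simp
    · obtain ⟨m, hm⟩ : ∃ m, v i = m + 1 := ⟨v i - 1, by omega⟩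
      rw [hm, Nat.add_sub_cancel]
      push_cast
      ring
  rw [h3] at h1
  push_cast at h2
  linarith

theorem sum_sq_le {μ : ℕ} {v : Fin n → ℕ} (hv : ∀ i, v i ≤ μ) :
    ∑ i, (v i : ℤ) * (v i + 1) ≤ ((μ : ℤ) + 1) * ∑ i, (v i : ℤ) := by
  rw [Finset.mul_sum]
  refine Finset.sum_le_sum fun i _ => ?_
  have h3 : (v i : ℤ) ≤ μ := by exact_mod_cast hv i
  have h4 : (0 : ℤ) ≤ v i := Int.natCast_nonneg _
  nlinarith

/-- The vector of the numbers `v i - 1` is large in the preceding degree. -/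
theorem pred_large {μ e : ℕ} {v : Fin n → ℕ} (hv : ∀ i, v i ≤ μ) (h0 : 0 ≤ chi (e + 1) v)
    (h : 26000 * ((μ : ℤ) + 2) ^ 2 ≤ ∑ i, (v i : ℤ) + 4 * chi (e + 1) v) :
    0 ≤ chi e (fun i => v i - 1) ∧
      25000 * ((μ : ℤ) + 1) ^ 2 ≤ 4 * chi e (fun i => v i - 1) := by
  have h1 := chi_pred e v
  have h2 := two_chi (e + 1) v
  have h3 := sum_sq_le hv
  obtain ⟨S, hS⟩ : ∃ S, S = ∑ i, (v i : ℤ) := ⟨_, rfl⟩
  obtain ⟨A, hA⟩ : ∃ A, A = ∑ i, (v i : ℤ) * (v i + 1) := ⟨_, rfl⟩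
  obtain ⟨c, hc⟩ : ∃ c, c = chi (e + 1) v := ⟨_, rfl⟩
  obtain ⟨c', hc'⟩ : ∃ c', c' = chi e (fun i => v i - 1) := ⟨_, rfl⟩
  obtain ⟨D, hD⟩ : ∃ D : ℤ, D = e + 2 := ⟨_, rfl⟩
  rw [← hS, ← hc] at h h1
  rw [← hA, ← hc] at h2
  rw [← hA, ← hS] at h3
  rw [← hc', ← hD] at h1
  rw [← hc] at h0
  rw [← hc']
  have hμ : (0 : ℤ) ≤ μ := Int.natCast_nonneg _
  obtain ⟨m, hm⟩ : ∃ m : ℤ, m = μ + 2 := ⟨_, rfl⟩
  have hm2 : 2 ≤ m := by linarith
  have hμm : (μ : ℤ) = m - 2 := by linarith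
  rw [← hm] at h
  have hgoal : 25000 * ((μ : ℤ) + 1) ^ 2 ≤ 25000 * m ^ 2 := by
    have : ((μ : ℤ) + 1) ^ 2 ≤ m ^ 2 := pow_le_pow_left₀ (by linarith) (by linarith) 2
    linarith
  have hD2 : (2 : ℤ) ≤ D := by
    have : (0 : ℤ) ≤ e := Int.natCast_nonneg _
    linarith
  have h2' : 2 * c = D * (D + 1) - A := by
    rw [h2, hD]
    push_cast
    ring
  have hm0 : 0 ≤ m ^ 2 := by positivity
  rcases le_or_gt (2 * D) S with hcase | hcase
  · -- many points
    constructor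
    · linarith
    · linarith
  · -- few points
    have h5 : (13000 : ℤ) * m ^ 2 < (D + 1) ^ 2 := by
      have hS0 : 0 ≤ S := by
        rw [hS]
        exact Finset.sum_nonneg fun i _ => Int.natCast_nonneg _
      have hA0 : 0 ≤ A := by
        rw [hA]
        exact Finset.sum_nonneg fun i _ => by positivity
      nlinarith
    have h6 : 114 * m < D + 1 := by
      by_contra hcon
      push Not at hcon
      have h7 : (D + 1) ^ 2 ≤ (114 * m) ^ 2 := pow_le_pow_left₀ (by linarith) hcon 2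
      nlinarith
    have h7 : 114 * m ≤ D := by linarith
    have hA2 : A - 2 * S ≤ 2 * (m - 2) * D := by
      have hS0 : 0 ≤ S := by
        rw [hS]
        exact Finset.sum_nonneg fun i _ => Int.natCast_nonneg _
      have e1 : ((μ : ℤ) + 1) = m - 1 := by linarith
      rw [e1] at h3
      rcases le_or_gt 3 m with h8 | h8
      · have h9 : (m - 3) * S ≤ (m - 3) * (2 * D) :=
          mul_le_mul_of_nonneg_left hcase.le (by linarith)
        nlinarith
      · have hm3 : m = 2 := by linarith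
        rw [hm3] at h3 ⊢
        linarith
    have h8 : 2 * c' = D * (D - 1) - (A - 2 * S) := by
      rw [h1]
      linarith
    have h9 : D * (D - 1) - 2 * (m - 2) * D ≤ 2 * c' := by linarith
    have h10 : 114 * m * (112 * m) ≤ D * (D - 1 - 2 * (m - 2)) := by
      apply mul_le_mul h7 (by linarith) (by linarith) (by linarith)
    have h11 : 12768 * m ^ 2 ≤ 2 * c' := by nlinarith
    constructor
    · linarith
    · linarith

/-- The degrees of small virtual dimension form a short interval. -/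
theorem short {μ d d' : ℕ} {v : Fin n → ℕ}
    (h : 4 * |chi d v| < 26000 * ((μ : ℤ) + 2) ^ 2)
    (h' : 4 * |chi d' v| < 26000 * ((μ : ℤ) + 2) ^ 2) :
    d' < d + 162 * (μ + 2) := by
  by_contra hcon
  push Not at hcon
  have h1 := two_chi d v
  have h2 := two_chi d' v
  have h3 := le_abs_self (chi d' v)
  have h4 := neg_abs_le (chi d v)
  have h5 : (d : ℤ) + 162 * ((μ : ℤ) + 2) ≤ d' := by exact_mod_cast hcon
  have h6 : (0 : ℤ) ≤ μ := Int.natCast_nonneg _
  have h7 : (0 : ℤ) ≤ d := Int.natCast_nonneg _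
  have h8 : (162 * ((μ : ℤ) + 2)) * (162 * ((μ : ℤ) + 2)) ≤
      ((d' : ℤ) - d) * (d + d' + 3) := by
    apply mul_le_mul (by linarith) (by linarith) (by positivity) (by linarith)
  have h9 : 2 * chi d' v - 2 * chi d v = ((d' : ℤ) - d) * (d + d' + 3) := by
    rw [h1, h2]
    ring
  nlinarith

/-- The small degrees. -/
theorem deg_small {μ d : ℕ} {v : Fin n → ℕ} (hv : ∀ i, v i ≤ μ)
    (h : ∑ i, (v i : ℤ) + 4 * |chi d v| < 26000 * ((μ : ℤ) + 2) ^ 2) :
    ((d : ℤ) + 1) ^ 2 < 26000 * ((μ : ℤ) + 2) ^ 3 := by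
  have h1 := two_chi d v
  have h2 := sum_sq_le hv
  have h5 : chi d v ≤ |chi d v| := le_abs_self _
  have h6 : (0 : ℤ) ≤ |chi d v| := abs_nonneg _
  have h8 : (0 : ℤ) ≤ μ := Int.natCast_nonneg _
  have h9 : (0 : ℤ) ≤ d := Int.natCast_nonneg _
  have h10 : ((d : ℤ) + 1) ^ 2 ≤ ((μ : ℤ) + 1) * (∑ i, (v i : ℤ) + 4 * |chi d v|) := by
    nlinarith
  have h11 : ((μ : ℤ) + 1) * (∑ i, (v i : ℤ) + 4 * |chi d v|) <
      ((μ : ℤ) + 1) * (26000 * ((μ : ℤ) + 2) ^ 2) := by
    apply mul_lt_mul_of_pos_left h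
    linarith
  have h12 : ((μ : ℤ) + 1) * (26000 * ((μ : ℤ) + 2) ^ 2) ≤ 26000 * ((μ : ℤ) + 2) ^ 3 := by
    have : (0 : ℤ) ≤ 26000 * ((μ : ℤ) + 2) ^ 2 := by positivity
    nlinarith
  linarith

theorem chi_succ (d : ℕ) (v : Fin n → ℕ) : chi (d + 1) v = chi d v + (d + 2) := by
  have h1 := two_chi d v
  have h2 := two_chi (d + 1) v
  push_cast at h2
  linarith

theorem chi_mono {d d' : ℕ} (v : Fin n → ℕ) (h : d < d') : chi d v + (d + 2) ≤ chi d' v := by
  have h1 := two_chi d v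
  have h2 := two_chi d' v
  have h3 : (d : ℤ) + 1 ≤ d' := by exact_mod_cast h
  have h4 : (0 : ℤ) ≤ d := Int.natCast_nonneg _
  nlinarith

/-- If the virtual dimension is positive, then the multiplicities are at most the degree. -/
theorem mult_le {d : ℕ} {v : Fin n → ℕ} (h : 1 ≤ chi d v) (k : Fin n) : v k ≤ d := by
  have h1 := two_chi d v
  have h2 : (v k : ℤ) * (v k + 1) ≤ ∑ i, (v i : ℤ) * (v i + 1) :=
    Finset.single_le_sum (f := fun i => (v i : ℤ) * (v i + 1))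
      (fun i _ => by positivity) (Finset.mem_univ k)
  by_contra hcon
  push Not at hcon
  have h3 : (d : ℤ) + 1 ≤ v k := by exact_mod_cast hcon
  have h4 : (0 : ℤ) ≤ d := Int.natCast_nonneg _
  nlinarith

/-- The critical degree is unique. -/
theorem crit_unique {d d' : ℕ} {v : Fin n → ℕ} {k k' : Fin n} (h : 1 ≤ chi d v)
    (h1 : chi d v ≤ v k) (h' : 1 ≤ chi d' v) (h1' : chi d' v ≤ v k') : d = d' := by
  have key : ∀ {a b : ℕ} {k : Fin n}, 1 ≤ chi a v → chi b v ≤ v k → ¬ a < b := by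
    intro a b k ha hb hab
    have h2 := chi_mono v hab
    have h3 : (v k : ℤ) ≤ a := by exact_mod_cast mult_le ha k
    linarith
  rcases lt_trichotomy d d' with h2 | h2 | h2
  · exact absurd h2 (key h h1')
  · exact h2
  · exact absurd h2 (key h' h1)

end num

section smooth

variable {K : Type} [Field K] {n : ℕ}

theorem finrank_of_ok {P : Fin n → Fin 2 → K} {w : Fin n → ℕ} (h : Ok P w) {d μ : ℕ}
    (hw : ∀ i, w i ≤ μ)
    (hb : 25000 * ((μ : ℤ) + 1) ^ 2 ≤ ∑ i, (w i : ℤ) + 4 * |chi d w|) :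
    Module.finrank K ↥(forms w P d) = (d + 2).choose 2 - ∑ i, (w i + 1).choose 2 := by
  have h1 := h d μ hw hb
  rw [sys_forms, chi_nat] at h1
  omega

theorem surj_of_ok {P : Fin n → Fin 2 → K} {w : Fin n → ℕ} (h : Ok P w) {d μ : ℕ}
    (hw : ∀ i, w i ≤ μ) (h0 : 0 ≤ chi d w)
    (hb : 25000 * ((μ : ℤ) + 1) ^ 2 ≤ ∑ i, (w i : ℤ) + 4 * |chi d w|) :
    Function.Surjective (ev w P d) := by
  refine surj_of_ind ?_
  have h1 := h d μ hw hb
  rw [sys_forms, max_eq_right h0, chi_nat] at h1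
  omega

/-- the degrees where the general member is under control -/
def Good (μ : ℕ) (v : Fin n → ℕ) (d : ℕ) : Prop :=
  26000 * ((μ : ℤ) + 2) ^ 2 ≤ ∑ i, (v i : ℤ) + 4 * |chi d v| ∧ ∀ k, (v k : ℤ) + 1 ≤ chi d v

theorem upd_le {μ : ℕ} {v : Fin n → ℕ} (hv : ∀ i, v i ≤ μ) (k : Fin n) (i : Fin n) :
    Function.update v k (v k + 1) i ≤ μ + 1 := by
  classical
  by_cases hi : i = k
  · subst hi
    rw [Function.update_self]
    have := hv i
    omega
  · rw [Function.update_of_ne hi]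
    have := hv i
    omega

theorem surj_upd {μ d : ℕ} {v : Fin n → ℕ} (hv : ∀ i, v i ≤ μ) (hg : Good μ v d) (k : Fin n)
    {P : Fin n → Fin 2 → K} (h : Ok P (Function.update v k (v k + 1))) :
    Function.Surjective (ev (Function.update v k (v k + 1)) P d) := by
  obtain ⟨h1, h2⟩ := hg
  have h3 := h2 k
  have hk : (v k : ℤ) ≤ μ := by exact_mod_cast hv k
  have hk0 : (0 : ℤ) ≤ v k := Int.natCast_nonneg _
  refine surj_of_ok h (upd_le hv k) (by rw [chi_upd]; linarith) ?_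
  rw [chi_upd, sum_upd, abs_of_nonneg (by linarith)]
  rw [abs_of_nonneg (by linarith)] at h1
  push_cast
  have e1 : ((μ : ℤ) + 1 + 1) = μ + 2 := by ring
  rw [e1]
  nlinarith

theorem surj_pred {μ e : ℕ} {v : Fin n → ℕ} (hn : 0 < n) (hv : ∀ i, v i ≤ μ)
    (hg : Good μ v (e + 1)) {P : Fin n → Fin 2 → K} (h : Ok P (fun i => v i - 1)) :
    Function.Surjective (ev (fun i => v i - 1) P e) := by
  obtain ⟨h1, h2⟩ := hg
  have h3 := h2 ⟨0, hn⟩
  have hk0 : (0 : ℤ) ≤ v ⟨0, hn⟩ := Int.natCast_nonneg _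
  rw [abs_of_nonneg (by linarith)] at h1
  obtain ⟨h4, h5⟩ := pred_large hv (by linarith) h1
  refine surj_of_ok h (fun i => (Nat.sub_le _ _).trans (hv i)) h4 ?_
  rw [abs_of_nonneg h4]
  have h6 : (0 : ℤ) ≤ ∑ i, (((v i - 1 : ℕ)) : ℤ) :=
    Finset.sum_nonneg fun i _ => Int.natCast_nonneg _
  linarith

/-- **Main theorem**: one hypersurface for all degrees. -/
theorem main [CharZero K] {μ : ℕ} (hn : 0 < n) (v : Fin n → ℕ) (hv : ∀ i, v i ≤ μ) :
    ∃ F : MvPolynomial (Fin n × Fin 2) ℚ, F ≠ 0 ∧ ∀ P : Fin n → Fin 2 → K,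
      aeval (fun ij : Fin n × Fin 2 => P ij.1 ij.2) F ≠ 0 →
      (∀ d, 26000 * ((μ : ℤ) + 2) ^ 2 ≤ ∑ i, (v i : ℤ) + 4 * |chi d v| →
        Module.finrank K ↥(forms v P d) = (d + 2).choose 2 - ∑ i, (v i + 1).choose 2) ∧
      ∀ w : Fin n → ℕ, (∀ i, w i ≤ v i) → ∀ d, Good μ v d →
        Module.finrank K ↥(forms w P d) + ∑ i, (w i + 1).choose 2 = (d + 2).choose 2 ∧
          GeneralMember (forms w P d) (SmoothMember w P) := by
  classical
  have hμ : (0 : ℤ) ≤ μ := Int.natCast_nonneg _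
  have hbig : 25000 * ((μ : ℤ) + 1) ^ 2 ≤ 26000 * ((μ : ℤ) + 2) ^ 2 := by nlinarith
  choose G hG hG' using fun k : Fin n => exists_open (Function.update v k (v k + 1))
  obtain ⟨F3, hF3, hF3'⟩ := exists_open v
  obtain ⟨D0, hD0⟩ : ∃ D0 : ℕ, D0 = ∑ i, (v i + 1).choose 2 + 26000 * (μ + 2) ^ 2 := ⟨_, rfl⟩
  obtain ⟨F, hF, hF'⟩ := Pool.Agent.Y536.SH.open_allw (K := K) v hn (Good μ v) D0
    (fun e he L _ _ P hP => ⟨fun k => surj_upd hv he k (ok_of_generic hP _),
      surj_pred hn hv he (ok_of_generic hP _)⟩)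
    ⟨∏ k, G k, Finset.prod_ne_zero_iff.2 fun k _ => hG k, fun P hP e he k => by
      rw [map_prod] at hP
      exact surj_upd hv he k (hG' k P (Finset.prod_ne_zero_iff.1 hP k (Finset.mem_univ k)))⟩
    ⟨F3, hF3, fun P hP d hd => by
      have h1 : 26000 * ((μ : ℤ) + 2) ^ 2 ≤ chi d v := by
        rw [chi_nat]
        have h2 : d + 1 ≤ (d + 2).choose 2 := by
          have h3 := Pool.Agent.H248R6.two_choose (d + 1)
          have e4 : d + 1 + 1 = d + 2 := rfl
          rw [e4] at h3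
          nlinarith
        have h4 : ((∑ i, (v i + 1).choose 2 + 26000 * (μ + 2) ^ 2 : ℕ) : ℤ) ≤
            (((d + 2).choose 2 : ℕ) : ℤ) := by
          exact_mod_cast (by omega :
            ∑ i, (v i + 1).choose 2 + 26000 * (μ + 2) ^ 2 ≤ (d + 2).choose 2)
        push_cast at h4 ⊢
        linarith
      have h5 : 0 ≤ chi d v := le_trans (by positivity) h1
      refine surj_of_ok (hF3' P hP) hv h5 ?_
      rw [abs_of_nonneg h5]
      have h6 : (0 : ℤ) ≤ ∑ i, (v i : ℤ) := Finset.sum_nonneg fun i _ => Int.natCast_nonneg _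
      have h7 : (0 : ℤ) ≤ 26000 * ((μ : ℤ) + 2) ^ 2 := by positivity
      linarith⟩
  refine ⟨F * F3, mul_ne_zero hF hF3, fun P hP => ?_⟩
  rw [map_mul] at hP
  refine ⟨fun d hd => finrank_of_ok (hF3' P (right_ne_zero_of_mul hP)) hv (hbig.trans hd),
    fun w hw d hd => ?_⟩
  obtain ⟨e, rfl⟩ : ∃ e, d = e + 1 := by
    refine ⟨d - 1, ?_⟩
    rcases Nat.eq_zero_or_pos d with h0 | h0
    · exfalso
      subst h0
      obtain ⟨h5, h6⟩ := hd
      have h7 := h6 ⟨0, hn⟩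
      have h8 : (0 : ℤ) ≤ v ⟨0, hn⟩ := Int.natCast_nonneg _
      have h9 := fun k => mult_le (show 1 ≤ chi 0 v by linarith) k
      have h10 : ∑ i, (v i : ℤ) = 0 := Finset.sum_eq_zero fun i _ => by
        have := h9 i
        have : v i = 0 := by omega
        rw [this]
        rfl
      have h11 := two_chi 0 v
      have h12 : 0 ≤ ∑ i, (v i : ℤ) * (v i + 1) := Finset.sum_nonneg fun i _ => by positivity
      rw [h10, abs_of_nonneg (by linarith)] at h5
      push_cast at h11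
      nlinarith
    · omega
  exact hF' P (left_ne_zero_of_mul hP) w hw e (Or.inl hd)

end smooth

end Pool.Agent.K3h62.SI
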